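import Pool.Agent.H60.DR.Base

set_option autoImplicit false

open Filter Topology Set MeasureTheory
open scoped InnerProductSpace ENNReal

namespace Pool.Agent.H60.DR

open Pool.Agent.W805.DW

section

variable {H Y : Type} [NormedAddCommGroup H] [InnerProductSpace ℂ H] [CompleteSpace H]
  [NormedAddCommGroup Y] [InnerProductSpace ℂ Y] [CompleteSpace Y]

/-- `‖u(0)‖² ≤ K ∫_E ‖B^* u(t)‖² dt` for all solutions `u` on `[0,T]` of `u' + i A u = 0`. -/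
def ObsOn (A : H →ₗ.[ℂ] H) (B : Y →L[ℂ] H) (T : ℝ) (E : Set ℝ) (K : ℝ) : Prop :=
  ∀ u : ℝ → H, IsSchrodingerSol A T u →
    ‖u 0‖ ^ 2 ≤ K * ∫ t in E, ‖ContinuousLinearMap.adjoint B (u t)‖ ^ 2

/-- Observability from every measurable set of times of positive measure. -/
def ObsAll (A : H →ₗ.[ℂ] H) (B : Y →L[ℂ] H) : Prop :=
  ∀ (T : ℝ) (E : Set ℝ), MeasurableSet E → E ⊆ Icc 0 T → 0 < volume E →
    ∃ K : ℝ, 0 < K ∧ ObsOn A B T E K

end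

/-- Piece 3': observability from every set of times of positive measure (Riemann-Lebesgue for
`g → ∞`, compactness for bounded `g ≥ 1`), with cost `200 / T ^ 3` for `T ≤ 1`. -/
def StObs2 : Prop := ∀ (μ g : ℕ → ℝ), (∀ n, 1 ≤ g n) → ObsAll (Ag μ g) B ∧
  ∀ T : ℝ, 0 < T → T ≤ 1 → ObsOn (Ag μ g) B T (Ioc 0 T) (200 / T ^ 3)

/-- Piece 2': the rate `(1 + t)^{-α}`. -/
def StStable2 : Prop := ∀ (μ g : ℕ → ℝ) (α c : ℝ), 0 < α → 0 < c → (∀ n, 16 ≤ μ n) →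
  (∀ n, 1 ≤ g n) → (∀ n, 16 * (g n) ^ 2 ≤ μ n) →
  (∀ n, c * (μ n) ^ (-(1 / (2 * α))) ≤ (g n) ^ 2 / μ n) →
  StableAt (Ag μ g) (Sg μ g) B (fun t => (1 + t) ^ (-α))

/-- Piece 5': every rate is at least a constant times `(1 + t)^{-α}`, at every time (take the solution
`e^{zt} w_n` at the time `t` with `t ≤ 1 / d_n ≤ t + 100`). -/
def StNot2 : Prop := ∀ α : ℝ, 1 / 2 ≤ α → ∀ f : ℝ → ℝ,
  StableAt (Ag (mus α) (gs α)) (Sg (mus α) (gs α)) B f →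
  ∃ c : ℝ, 0 < c ∧ ∀ t : ℝ, 0 < t → c * (1 + t) ^ (-α) ≤ |f t|

end Pool.Agent.H60.DR
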