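import Pool.Graph.R_seed8.W805.DWEx

/-!
# Exact decay rates of damped waves with an observable Schrödinger group: the pieces

The example: `H = ℓ²(ℕ × Bool)`, `A = diag (μ n ± g n)`, `B^* x = ((x (n, true) + x (n, false)) / √2)_n`.
-/

set_option autoImplicit false

open Filter Topology Set
open scoped InnerProductSpace ENNReal

namespace Pool.Agent.H60.DR

open Pool.Agent.W805.DW

/-- the eigenvalues `μ n ± g n` of `A` -/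
noncomputable def evg (μ g : ℕ → ℝ) (i : ℕ × Bool) : ℝ := if i.2 then μ i.1 + g i.1 else μ i.1 - g i.1

/-- `A` -/
noncomputable def Ag (μ g : ℕ → ℝ) : L2 (ℕ × Bool) →ₗ.[ℂ] L2 (ℕ × Bool) := dop (evg μ g)

/-- `A^{1/2}` -/
noncomputable def Sg (μ g : ℕ → ℝ) : L2 (ℕ × Bool) →ₗ.[ℂ] L2 (ℕ × Bool) :=
  dop (fun i => Real.sqrt (evg μ g i))

/-- Piece 1: exponential decay of one block (real form). Lyapunov function
`L = 2 (a² + b² + μ (p² + q²) + 2 g p q) + g (a q - b p) + a p - (γ / 4) b q`, `L' ≤ -(γ/12) L`,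
`E₀ ≤ L ≤ 3 E₀` with `E₀ = a² + b² + μ (p² + q²)`. -/
def StBlock : Prop := ∀ (μ g γ : ℝ) (p q a b : ℝ → ℝ), 16 ≤ μ → 0 < g → γ * μ = g ^ 2 →
  16 * γ ≤ 1 →
  (∀ t, 0 ≤ t → HasDerivWithinAt p (a t) (Ici 0) t) →
  (∀ t, 0 ≤ t → HasDerivWithinAt q (b t) (Ici 0) t) →
  (∀ t, 0 ≤ t → HasDerivWithinAt a (-μ * p t - g * q t - a t) (Ici 0) t) →
  (∀ t, 0 ≤ t → HasDerivWithinAt b (-μ * q t - g * p t) (Ici 0) t) →
  ∀ t, 0 ≤ t → a t ^ 2 + b t ^ 2 + μ * (p t ^ 2 + q t ^ 2) ≤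
    3 * Real.exp (-(γ / 12) * t) * (a 0 ^ 2 + b 0 ^ 2 + μ * (p 0 ^ 2 + q 0 ^ 2))

/-- Piece 2: the decay rate `t^{-α}` from the decay of the blocks. -/
def StStable : Prop := ∀ (μ g : ℕ → ℝ) (α c : ℝ), 0 < α → 0 < c → (∀ n, 16 ≤ μ n) →
  (∀ n, 1 ≤ g n) → (∀ n, 16 * (g n) ^ 2 ≤ μ n) →
  (∀ n, c * (μ n) ^ (-(1 / (2 * α))) ≤ (g n) ^ 2 / μ n) →
  StableAt (Ag μ g) (Sg μ g) B (fun t => t ^ (-α))

/-- Piece 3: observability of the Schrödinger system in every time. -/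
def StObs : Prop := ∀ (μ g : ℕ → ℝ), (∀ n, 1 ≤ g n) → ∀ T : ℝ, 0 < T → Observable (Ag μ g) B T

/-- the damping `d_n = 1 / (100 (n + 1))` -/
noncomputable def dn (n : ℕ) : ℝ := (100 * ((n : ℝ) + 1))⁻¹

/-- the gap `g = d^{(1 - 2 α) / 2}` -/
noncomputable def gg (α d : ℝ) : ℝ := d ^ ((1 - 2 * α) / 2)

/-- real part of `s` -/
noncomputable def aa (d : ℝ) : ℝ := -(2 * d ^ 2) / (1 - 4 * d)

/-- squared frequency -/
noncomputable def ww (α d : ℝ) : ℝ := (gg α d ^ 2 - aa d ^ 2 + d * aa d) / (2 * d * (1 - 2 * d))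

/-- `μ = a + ω² - d²` -/
noncomputable def mu (α d : ℝ) : ℝ := aa d + ww α d - d ^ 2

/-- the sequence `μ_n` -/
noncomputable def mus (α : ℝ) (n : ℕ) : ℝ := mu α (dn n)

/-- the sequence `g_n` -/
noncomputable def gs (α : ℝ) (n : ℕ) : ℝ := gg α (dn n)

/-- Piece 4: the size of the parameters. -/
def StPar : Prop := ∀ α : ℝ, 1 / 2 ≤ α → Tendsto (mus α) atTop atTop ∧ (∀ n, 16 ≤ mus α n) ∧
  (∀ n, 1 ≤ gs α n) ∧ (∀ n, 16 * (gs α n) ^ 2 ≤ mus α n) ∧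
  (∀ n, 1 / 2 * (mus α n) ^ (-(1 / (2 * α))) ≤ (gs α n) ^ 2 / mus α n) ∧
  ∀ n, mus α n ≤ (dn n) ^ (-(2 * α)) ∧ 0 < ww α (dn n) ∧ ww α (dn n) ≤ (dn n) ^ (-(2 * α))

/-- Piece 5: no better rate; the solutions `e^{zt} w_n`, `z = -d + i √ω²`, as in the library module
`W805/DWMain` (with `g` in place of `1`: `s (s + z) = g²`, `s = z² + μ = a - 2 i d √ω²`,
`w = (g - s) e_{(n,true)} - (g + s) e_{(n,false)}`). -/
def StNot : Prop := ∀ α : ℝ, 1 / 2 ≤ α → ∀ f : ℝ → ℝ,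
  Tendsto (fun t => f t * t ^ α) atTop (𝓝 0) → ¬ StableAt (Ag (mus α) (gs α)) (Sg (mus α) (gs α)) B f

end Pool.Agent.H60.DR
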