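import Pool.Agent.H60.DR.Sta

set_option autoImplicit false

open Filter Topology Set
open scoped InnerProductSpace ENNReal

namespace Pool.Agent.H60.DR

open Pool.Agent.W805.DW

lemma evg_tendsto {μ g : ℕ → ℝ} (h : Tendsto μ atTop atTop) (hge : ∀ i, μ i.1 / 2 ≤ evg μ g i) :
    Tendsto (evg μ g) cofinite atTop := by
  rw [tendsto_atTop]
  intro b
  rw [tendsto_atTop] at h
  have h1 := h (2 * b)
  rw [eventually_atTop] at h1
  obtain ⟨N, hN⟩ := h1
  rw [eventually_cofinite]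
  apply Set.Finite.subset (s := (Set.Iio N) ×ˢ (Set.univ : Set Bool))
  · exact (Set.finite_Iio N).prod Set.finite_univ
  · rintro ⟨n, c⟩ hnc
    simp only [mem_prod, mem_Iio, mem_univ, and_true]
    by_contra hcon
    push Not at hcon
    apply hnc
    have h2 := hN n hcon
    have h3 := hge (n, c)
    simp only at h3
    linarith

theorem main (hB : StBlock) (hO : StObs) (hP : StPar) (hN : StNot) (α : ℝ) (hα : 1 / 2 ≤ α) :
    ∃ A S : L2 (ℕ × Bool) →ₗ.[ℂ] L2 (ℕ × Bool),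
      IsSelfAdjoint A ∧ Nonneg A ∧ Pool.Agent.Helper421.CompactRes.HasCompactResolvent A ∧
      IsSqrt A S ∧ (∀ T : ℝ, 0 < T → Observable A B T) ∧
      StableAt A S B (fun t => t ^ (-α)) ∧
      (∀ β : ℝ, α < β → ¬ StableAt A S B (fun t => t ^ (-β))) ∧
      ∀ f : ℝ → ℝ, Tendsto (fun t => f t * t ^ α) atTop (𝓝 0) → ¬ StableAt A S B f := by
  obtain ⟨p1, p2, p3, p4, p5, _⟩ := hP α hα
  have hge := evg_ge p3 p2 p4
  have h1 : ∀ i, 1 ≤ evg (mus α) (gs α) i := fun i => by
    have := hge i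
    have := p2 i.1
    linarith
  have h0 : ∀ i, 0 ≤ evg (mus α) (gs α) i := fun i => zero_le_one.trans (h1 i)
  refine ⟨Ag (mus α) (gs α), Sg (mus α) (gs α), dop_selfAdjoint _, dop_nonneg _ h0,
    dop_compactResolvent _ h0 (evg_tendsto p1 hge), ?_, hO _ _ p3, ?_, ?_, hN α hα⟩
  · exact dop_sqrt _ _ (fun i => Real.sqrt_nonneg _) (fun i => Real.mul_self_sqrt (h0 i)) h1
  · exact stStable hB _ _ α (1 / 2) (by linarith) (by norm_num) p2 p3 p4 p5
  · intro β hβ
    refine hN α hα _ ?_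
    have h2 : Tendsto (fun t : ℝ => t ^ (-(β - α))) atTop (𝓝 0) :=
      tendsto_rpow_neg_atTop (by linarith)
    refine h2.congr' ?_
    filter_upwards [eventually_gt_atTop 0] with t ht
    rw [← Real.rpow_add ht]
    congr 1
    ring

end Pool.Agent.H60.DR
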