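import Pool.Agent.H60.DR.Sta
import Pool.Agent.H60.DR.Base2

set_option autoImplicit false

open Filter Topology Set
open scoped InnerProductSpace ENNReal

namespace Pool.Agent.H60.DR

open Pool.Agent.W805.DW

theorem stable_of (hB : StBlock) (μ g : ℕ → ℝ) (hμ : ∀ n, 16 ≤ μ n) (hg : ∀ n, 1 ≤ g n)
    (hgm : ∀ n, 16 * (g n) ^ 2 ≤ μ n) (r : ℝ → ℝ) (hr : ∀ t, 0 < t → 0 < r t) (K : ℝ) (hK0 : 0 < K)
    (hK : ∀ t, 0 < t → ∀ n, Real.exp (-(((g n) ^ 2 / μ n) / 12) * t) ≤ K * (r t) ^ 2 * μ n) :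
    StableAt (Ag μ g) (Sg μ g) B r := by
  set M : ℝ := ‖B‖ * ‖ContinuousLinearMap.adjoint B‖ with hM
  have hM0 : 0 ≤ M := by positivity
  refine ⟨Real.sqrt (36 * K * (1 + M) ^ 2), fun u v h t ht => ?_⟩
  set Γ := graphNrm (Ag μ g) (Sg μ g) B (u 0) (h.dom 0 le_rfl) (v 0) with hΓ
  have hev0 : ∀ i, 0 ≤ evg μ g i := fun i => by
    have := evg_ge hg hμ hgm i
    have := hμ i.1
    linarith
  -- the norm of `S x`
  have hS : ∀ x : (Sg μ g).domain, HasSum (fun n : ℕ => evg μ g (n, true) *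
      ‖(x : L2 (ℕ × Bool)) (n, true)‖ ^ 2 + evg μ g (n, false) *
      ‖(x : L2 (ℕ × Bool)) (n, false)‖ ^ 2) (‖Sg μ g x‖ ^ 2) := by
    intro x
    have h1 := hasSum_pair (Sg μ g x)
    convert h1 using 2 with n
    have h2 : ∀ i : ℕ × Bool, ‖(Sg μ g x : L2 (ℕ × Bool)) i‖ ^ 2 =
        evg μ g i * ‖(x : L2 (ℕ × Bool)) i‖ ^ 2 := by
      intro i
      have : (Sg μ g x : L2 (ℕ × Bool)) i = ((Real.sqrt (evg μ g i) : ℝ) : ℂ) *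
        (x : L2 (ℕ × Bool)) i := rfl
      rw [this, norm_mul, mul_pow, Complex.norm_real, Real.norm_eq_abs, sq_abs,
        Real.sq_sqrt (hev0 i)]
    rw [h2, h2]
  have hA : HasSum (fun n : ℕ => evg μ g (n, true) ^ 2 *
      ‖(u 0 : L2 (ℕ × Bool)) (n, true)‖ ^ 2 + evg μ g (n, false) ^ 2 *
      ‖(u 0 : L2 (ℕ × Bool)) (n, false)‖ ^ 2)
      (‖Ag μ g ⟨(u 0 : L2 (ℕ × Bool)), h.dom 0 le_rfl⟩‖ ^ 2) := by
    have h1 := hasSum_pair (Ag μ g ⟨(u 0 : L2 (ℕ × Bool)), h.dom 0 le_rfl⟩)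
    convert h1 using 2 with n
    have h2 : ∀ i : ℕ × Bool, ‖(Ag μ g ⟨(u 0 : L2 (ℕ × Bool)), h.dom 0 le_rfl⟩ :
        L2 (ℕ × Bool)) i‖ ^ 2 = evg μ g i ^ 2 * ‖(u 0 : L2 (ℕ × Bool)) i‖ ^ 2 := by
      intro i
      have : (Ag μ g ⟨(u 0 : L2 (ℕ × Bool)), h.dom 0 le_rfl⟩ : L2 (ℕ × Bool)) i =
        ((evg μ g i : ℝ) : ℂ) * (u 0 : L2 (ℕ × Bool)) i := rfl
      rw [this, norm_mul, mul_pow, Complex.norm_real, Real.norm_eq_abs, sq_abs]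
    rw [h2, h2]
  -- sizes of the initial data
  have g1 : ‖Sg μ g (v 0)‖ ≤ Γ := by
    have e1 : ‖Sg μ g (v 0)‖ ≤ nrm (Sg μ g) (v 0)
        (-(Ag μ g ⟨(u 0 : L2 (ℕ × Bool)), h.dom 0 le_rfl⟩) -
          B (ContinuousLinearMap.adjoint B (v 0 : L2 (ℕ × Bool)))) := by
      unfold nrm
      apply Real.le_sqrt_of_sq_le
      nlinarith [sq_nonneg ‖(v 0 : L2 (ℕ × Bool))‖, sq_nonneg
        ‖-(Ag μ g ⟨(u 0 : L2 (ℕ × Bool)), h.dom 0 le_rfl⟩) -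
          B (ContinuousLinearMap.adjoint B (v 0 : L2 (ℕ × Bool)))‖]
    have e2 : 0 ≤ nrm (Sg μ g) (u 0) (v 0 : L2 (ℕ × Bool)) := Real.sqrt_nonneg _
    rw [hΓ, graphNrm]
    linarith
  have g2 : ‖Ag μ g ⟨(u 0 : L2 (ℕ × Bool)), h.dom 0 le_rfl⟩‖ ≤ (1 + M) * Γ := by
    have e1 : ‖-(Ag μ g ⟨(u 0 : L2 (ℕ × Bool)), h.dom 0 le_rfl⟩) -
          B (ContinuousLinearMap.adjoint B (v 0 : L2 (ℕ × Bool)))‖ ≤ nrm (Sg μ g) (v 0)
        (-(Ag μ g ⟨(u 0 : L2 (ℕ × Bool)), h.dom 0 le_rfl⟩) -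
          B (ContinuousLinearMap.adjoint B (v 0 : L2 (ℕ × Bool)))) := by
      unfold nrm
      apply Real.le_sqrt_of_sq_le
      nlinarith [sq_nonneg ‖(v 0 : L2 (ℕ × Bool))‖, sq_nonneg ‖Sg μ g (v 0)‖]
    have e2 : ‖(v 0 : L2 (ℕ × Bool))‖ ≤ nrm (Sg μ g) (u 0) (v 0 : L2 (ℕ × Bool)) := by
      unfold nrm
      apply Real.le_sqrt_of_sq_le
      nlinarith [sq_nonneg ‖(u 0 : L2 (ℕ × Bool))‖, sq_nonneg ‖Sg μ g (u 0)‖]
    have e3 : ‖B (ContinuousLinearMap.adjoint B (v 0 : L2 (ℕ × Bool)))‖ ≤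
        M * ‖(v 0 : L2 (ℕ × Bool))‖ := by
      refine (B.le_opNorm _).trans ?_
      rw [hM, mul_assoc]
      exact mul_le_mul_of_nonneg_left (ContinuousLinearMap.le_opNorm _ _) (norm_nonneg _)
    have e4 : ‖Ag μ g ⟨(u 0 : L2 (ℕ × Bool)), h.dom 0 le_rfl⟩‖ ≤
        ‖-(Ag μ g ⟨(u 0 : L2 (ℕ × Bool)), h.dom 0 le_rfl⟩) -
          B (ContinuousLinearMap.adjoint B (v 0 : L2 (ℕ × Bool)))‖ +
        ‖B (ContinuousLinearMap.adjoint B (v 0 : L2 (ℕ × Bool)))‖ := by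
      have := norm_add_le (-(Ag μ g ⟨(u 0 : L2 (ℕ × Bool)), h.dom 0 le_rfl⟩) -
          B (ContinuousLinearMap.adjoint B (v 0 : L2 (ℕ × Bool))))
        (B (ContinuousLinearMap.adjoint B (v 0 : L2 (ℕ × Bool))))
      rwa [sub_add_cancel, norm_neg] at this
    have e5 : 0 ≤ nrm (Sg μ g) (u 0) (v 0 : L2 (ℕ × Bool)) := Real.sqrt_nonneg _
    have e6 : 0 ≤ nrm (Sg μ g) (v 0)
        (-(Ag μ g ⟨(u 0 : L2 (ℕ × Bool)), h.dom 0 le_rfl⟩) -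
          B (ContinuousLinearMap.adjoint B (v 0 : L2 (ℕ × Bool)))) := Real.sqrt_nonneg _
    have e7 : M * ‖(v 0 : L2 (ℕ × Bool))‖ ≤ M * nrm (Sg μ g) (u 0) (v 0 : L2 (ℕ × Bool)) :=
      mul_le_mul_of_nonneg_left e2 hM0
    rw [hΓ, graphNrm]
    nlinarith [mul_nonneg hM0 e6]
  have hΓ0 : 0 ≤ Γ := (norm_nonneg _).trans g1
  -- the sum
  have s1 : HasSum (fun n : ℕ => (evg μ g (n, true) *
      ‖(u t : L2 (ℕ × Bool)) (n, true)‖ ^ 2 + evg μ g (n, false) *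
      ‖(u t : L2 (ℕ × Bool)) (n, false)‖ ^ 2) + (‖(v t : L2 (ℕ × Bool)) (n, true)‖ ^ 2 +
      ‖(v t : L2 (ℕ × Bool)) (n, false)‖ ^ 2)) (‖Sg μ g (u t)‖ ^ 2 +
      ‖(v t : L2 (ℕ × Bool))‖ ^ 2) := (hS (u t)).add (hasSum_pair _)
  have s2 : HasSum (fun n : ℕ => (6 * K * (r t) ^ 2) *
      (2 * (evg μ g (n, true) *
      ‖(v 0 : L2 (ℕ × Bool)) (n, true)‖ ^ 2 + evg μ g (n, false) *
      ‖(v 0 : L2 (ℕ × Bool)) (n, false)‖ ^ 2) + 4 * (evg μ g (n, true) ^ 2 *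
      ‖(u 0 : L2 (ℕ × Bool)) (n, true)‖ ^ 2 + evg μ g (n, false) ^ 2 *
      ‖(u 0 : L2 (ℕ × Bool)) (n, false)‖ ^ 2)))
      ((6 * K * (r t) ^ 2) * (2 * ‖Sg μ g (v 0)‖ ^ 2 +
        4 * ‖Ag μ g ⟨(u 0 : L2 (ℕ × Bool)), h.dom 0 le_rfl⟩‖ ^ 2)) :=
    (((hS (v 0)).mul_left 2).add (hA.mul_left 4)).mul_left _
  have s3 := hasSum_le (fun n => ?_) s1 s2
  · have hrt := hr t ht
    have htp : 0 < (r t) ^ 2 := by positivity
    have s4 : 2 * ‖Sg μ g (v 0)‖ ^ 2 +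
        4 * ‖Ag μ g ⟨(u 0 : L2 (ℕ × Bool)), h.dom 0 le_rfl⟩‖ ^ 2 ≤ 6 * ((1 + M) * Γ) ^ 2 := by
      have a1 : ‖Sg μ g (v 0)‖ ^ 2 ≤ ((1 + M) * Γ) ^ 2 :=
        pow_le_pow_left₀ (norm_nonneg _) (g1.trans (by nlinarith)) 2
      have a2 : ‖Ag μ g ⟨(u 0 : L2 (ℕ × Bool)), h.dom 0 le_rfl⟩‖ ^ 2 ≤ ((1 + M) * Γ) ^ 2 :=
        pow_le_pow_left₀ (norm_nonneg _) g2 2
      linarith
    have s5 : ‖Sg μ g (u t)‖ ^ 2 + ‖(v t : L2 (ℕ × Bool))‖ ^ 2 ≤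
        (6 * K * (r t) ^ 2) * (6 * ((1 + M) * Γ) ^ 2) :=
      s3.trans (mul_le_mul_of_nonneg_left s4 (by positivity))
    have s6 : (6 * K * (r t) ^ 2) * (6 * ((1 + M) * Γ) ^ 2) =
        (36 * K * (1 + M) ^ 2) * (r t * Γ) ^ 2 := by
      ring
    rw [s6] at s5
    unfold semi
    calc Real.sqrt (‖Sg μ g (u t)‖ ^ 2 + ‖(v t : L2 (ℕ × Bool))‖ ^ 2) ≤
        Real.sqrt ((36 * K * (1 + M) ^ 2) * (r t * Γ) ^ 2) := Real.sqrt_le_sqrt s5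
      _ = Real.sqrt (36 * K * (1 + M) ^ 2) * r t * Γ := by
        rw [Real.sqrt_mul (by positivity), Real.sqrt_sq (by positivity)]
        ring
  · have b1 := block_decay hB hμ hg hgm h n t ht.le
    have b2 := hK t ht n
    have hrt := hr t ht
    have b3 : 0 ≤ FF μ (u 0) (v 0) n := by
      unfold FF
      have := hμ n
      positivity
    have c1 := evg_le hg hμ hgm (n, true)
    have c2 := evg_le hg hμ hgm (n, false)
    have c3 := evg_ge hg hμ hgm (n, true)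
    have c4 := evg_ge hg hμ hgm (n, false)
    simp only at c1 c2 c3 c4
    have hμn := hμ n
    -- left side ≤ 2 F(t)
    have d1 : (evg μ g (n, true) *
      ‖(u t : L2 (ℕ × Bool)) (n, true)‖ ^ 2 + evg μ g (n, false) *
      ‖(u t : L2 (ℕ × Bool)) (n, false)‖ ^ 2) + (‖(v t : L2 (ℕ × Bool)) (n, true)‖ ^ 2 +
      ‖(v t : L2 (ℕ × Bool)) (n, false)‖ ^ 2) ≤ 2 * FF μ (u t) (v t) n := by
      have a1 := mul_le_mul_of_nonneg_right c1 (sq_nonneg ‖(u t : L2 (ℕ × Bool)) (n, true)‖)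
      have a2 := mul_le_mul_of_nonneg_right c2 (sq_nonneg ‖(u t : L2 (ℕ × Bool)) (n, false)‖)
      unfold FF
      nlinarith [sq_nonneg ‖(v t : L2 (ℕ × Bool)) (n, true)‖,
        sq_nonneg ‖(v t : L2 (ℕ × Bool)) (n, false)‖]
    have d2 : μ n * FF μ (u 0) (v 0) n ≤ (2 * (evg μ g (n, true) *
      ‖(v 0 : L2 (ℕ × Bool)) (n, true)‖ ^ 2 + evg μ g (n, false) *
      ‖(v 0 : L2 (ℕ × Bool)) (n, false)‖ ^ 2) + 4 * (evg μ g (n, true) ^ 2 *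
      ‖(u 0 : L2 (ℕ × Bool)) (n, true)‖ ^ 2 + evg μ g (n, false) ^ 2 *
      ‖(u 0 : L2 (ℕ × Bool)) (n, false)‖ ^ 2)) := by
      have q1 : μ n ^ 2 ≤ 4 * evg μ g (n, true) ^ 2 := by nlinarith
      have q2 : μ n ^ 2 ≤ 4 * evg μ g (n, false) ^ 2 := by nlinarith
      have q3 : μ n ≤ 2 * evg μ g (n, true) := by linarith
      have q4 : μ n ≤ 2 * evg μ g (n, false) := by linarith
      have a1 := mul_le_mul_of_nonneg_right q1 (sq_nonneg ‖(u 0 : L2 (ℕ × Bool)) (n, true)‖)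
      have a2 := mul_le_mul_of_nonneg_right q2 (sq_nonneg ‖(u 0 : L2 (ℕ × Bool)) (n, false)‖)
      have a3 := mul_le_mul_of_nonneg_right q3 (sq_nonneg ‖(v 0 : L2 (ℕ × Bool)) (n, true)‖)
      have a4 := mul_le_mul_of_nonneg_right q4 (sq_nonneg ‖(v 0 : L2 (ℕ × Bool)) (n, false)‖)
      unfold FF
      nlinarith
    calc _ ≤ 2 * FF μ (u t) (v t) n := d1
      _ ≤ 2 * (3 * Real.exp (-(((g n) ^ 2 / μ n) / 12) * t) * FF μ (u 0) (v 0) n) := by linarith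
      _ ≤ 2 * (3 * (K * (r t) ^ 2 * μ n) * FF μ (u 0) (v 0) n) := by
        gcongr
      _ = (6 * K * (r t) ^ 2) * (μ n * FF μ (u 0) (v 0) n) := by ring
      _ ≤ _ := mul_le_mul_of_nonneg_left d2 (by positivity)



theorem stStable2 : StBlock → StStable2 := by
  intro hB μ g α c hα hc hμ hg hgm hγ
  set K : ℝ := Real.exp (2 * α * Real.log (2 * α) - 2 * α) * (c / 12) ^ (-(2 * α)) with hK
  have hK0 : 0 < K := by positivity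
  refine stable_of hB μ g hμ hg hgm (fun t => (1 + t) ^ (-α)) (fun t ht => by positivity)
    (2 ^ (2 * α) * (K + 1)) (by positivity) fun t ht n => ?_
  have hsq : ((1 + t) ^ (-α)) ^ 2 = (1 + t) ^ (-(2 * α)) := by
    rw [← Real.rpow_natCast, ← Real.rpow_mul (by positivity)]
    congr 1
    push_cast
    ring
  rw [hsq]
  have hμn := hμ n
  have hp : 0 < (1 + t) ^ (-(2 * α)) := by positivity
  have h2 : (0:ℝ) < 2 ^ (2 * α) := by positivity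
  rcases le_or_gt 1 t with h1 | h1
  · have b2 := exp_bound α c (μ n) ((g n) ^ 2 / μ n) t hα hc (by linarith [hμ n]) (hγ n) ht
    have b3 : t ^ (-(2 * α)) ≤ 2 ^ (2 * α) * (1 + t) ^ (-(2 * α)) := by
      have c1 : (2 * t) ^ (-(2 * α)) ≤ (1 + t) ^ (-(2 * α)) :=
        Real.rpow_le_rpow_of_nonpos (by positivity) (by linarith) (by linarith)
      have c2 : (2 * t) ^ (-(2 * α)) = (2 ^ (2 * α))⁻¹ * t ^ (-(2 * α)) := by
        rw [Real.mul_rpow (by norm_num) ht.le, Real.rpow_neg (by norm_num : (0:ℝ) ≤ 2)]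
      rw [c2, inv_mul_le_iff₀ h2] at c1
      exact c1
    calc Real.exp (-(((g n) ^ 2 / μ n) / 12) * t) ≤ K * t ^ (-(2 * α)) * μ n := b2
      _ ≤ K * (2 ^ (2 * α) * (1 + t) ^ (-(2 * α))) * μ n := by gcongr
      _ ≤ 2 ^ (2 * α) * (K + 1) * (1 + t) ^ (-(2 * α)) * μ n := by
        have : 0 ≤ 2 ^ (2 * α) * (1 + t) ^ (-(2 * α)) * μ n := by positivity
        nlinarith
  · have b2 : Real.exp (-(((g n) ^ 2 / μ n) / 12) * t) ≤ 1 := by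
      apply Real.exp_le_one_iff.2
      have : 0 ≤ (g n) ^ 2 / μ n := by positivity
      nlinarith
    have b3 : 1 ≤ 2 ^ (2 * α) * (1 + t) ^ (-(2 * α)) := by
      have c1 : (2:ℝ) ^ (-(2 * α)) ≤ (1 + t) ^ (-(2 * α)) :=
        Real.rpow_le_rpow_of_nonpos (by positivity) (by linarith) (by linarith)
      rw [Real.rpow_neg (by norm_num : (0:ℝ) ≤ 2), inv_le_iff_one_le_mul₀ h2] at c1
      linarith
    calc Real.exp (-(((g n) ^ 2 / μ n) / 12) * t) ≤ 1 := b2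
      _ ≤ 2 ^ (2 * α) * (1 + t) ^ (-(2 * α)) := b3
      _ = (2 ^ (2 * α) * (1 + t) ^ (-(2 * α))) * 1 := by ring
      _ ≤ (2 ^ (2 * α) * (1 + t) ^ (-(2 * α))) * ((K + 1) * μ n) := by
        apply mul_le_mul_of_nonneg_left _ (by positivity)
        nlinarith
      _ = _ := by ring

end Pool.Agent.H60.DR
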