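import Pool.Agent.H60.DR.Main
import Pool.Agent.H60.DR.Sta2

set_option autoImplicit false

open Filter Topology Set MeasureTheory
open scoped InnerProductSpace ENNReal

namespace Pool.Agent.H60.DR

open Pool.Agent.W805.DW

lemma isometric (y : L2 ℕ) : ContinuousLinearMap.adjoint B (B y) = y := by
  rw [adjB]
  ext n
  rw [G_apply, B_apply, B_apply, ← mul_add, ← mul_assoc, ← two_mul]
  linear_combination (2 * y n) * sqrt2_inv_sq

theorem main2 (hB : StBlock) (hO : StObs) (hP : StPar) (hN : StNot) (hO2 : StObs2) (hN2 : StNot2)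
    (α : ℝ) (hα : 1 / 2 ≤ α) :
    ∃ A S : L2 (ℕ × Bool) →ₗ.[ℂ] L2 (ℕ × Bool),
      IsSelfAdjoint A ∧ Nonneg A ∧ Pool.Agent.Helper421.CompactRes.HasCompactResolvent A ∧
      IsSqrt A S ∧ (∀ T : ℝ, 0 < T → Observable A B T) ∧ ObsAll A B ∧
      (∀ T : ℝ, 0 < T → T ≤ 1 → ObsOn A B T (Ioc 0 T) (200 / T ^ 3)) ∧
      StableAt A S B (fun t => (1 + t) ^ (-α)) ∧
      (∀ f : ℝ → ℝ, StableAt A S B f →
        ∃ c : ℝ, 0 < c ∧ ∀ t : ℝ, 0 < t → c * (1 + t) ^ (-α) ≤ |f t|) ∧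
      ∀ β : ℝ, α < β → ¬ StableAt A S B (fun t => t ^ (-β)) := by
  obtain ⟨p1, p2, p3, p4, p5, _⟩ := hP α hα
  have hge := evg_ge p3 p2 p4
  have h1 : ∀ i, 1 ≤ evg (mus α) (gs α) i := fun i => by
    have := hge i
    have := p2 i.1
    linarith
  have h0 : ∀ i, 0 ≤ evg (mus α) (gs α) i := fun i => zero_le_one.trans (h1 i)
  refine ⟨Ag (mus α) (gs α), Sg (mus α) (gs α), dop_selfAdjoint _, dop_nonneg _ h0,
    dop_compactResolvent _ h0 (evg_tendsto p1 hge), ?_, hO _ _ p3, (hO2 _ _ p3).1, (hO2 _ _ p3).2,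
    ?_, hN2 α hα, ?_⟩
  · exact dop_sqrt _ _ (fun i => Real.sqrt_nonneg _) (fun i => Real.mul_self_sqrt (h0 i)) h1
  · exact stStable2 hB _ _ α (1 / 2) (by linarith) (by norm_num) p2 p3 p4 p5
  · intro β hβ
    refine hN α hα _ ?_
    have h2 : Tendsto (fun t : ℝ => t ^ (-(β - α))) atTop (𝓝 0) :=
      tendsto_rpow_neg_atTop (by linarith)
    refine h2.congr' ?_
    filter_upwards [eventually_gt_atTop 0] with t ht
    rw [← Real.rpow_add ht]
    congr 1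
    ring

end Pool.Agent.H60.DR
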