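import Pool.Agent.H60.DR.Base

set_option autoImplicit false

open Filter Topology Set
open scoped InnerProductSpace ENNReal

namespace Pool.Agent.H60.DR

open Pool.Agent.W805.DW

lemma hasSum_pair (x : L2 (ℕ × Bool)) :
    HasSum (fun n : ℕ => ‖x (n, true)‖ ^ 2 + ‖x (n, false)‖ ^ 2) (‖x‖ ^ 2) := by
  rw [norm_sq]
  have h := (summable_sq x).hasSum
  refine h.prod_fiberwise fun n => ?_
  have := hasSum_fintype (fun c : Bool => ‖x (n, c)‖ ^ 2)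
  simpa using this

lemma rpow_le_exp (y s : ℝ) (hy : 0 < y) (hs : 0 < s) :
    y ^ s ≤ Real.exp (s * Real.log s - s) * Real.exp y := by
  rw [Real.rpow_def_of_pos hy, ← Real.exp_add]
  apply Real.exp_le_exp.2
  have h1 := Real.log_le_sub_one_of_pos (div_pos hy hs)
  rw [Real.log_div hy.ne' hs.ne'] at h1
  have h2 := mul_le_mul_of_nonneg_right h1 hs.le
  have h3 : (y / s - 1) * s = y - s := by field_simp
  rw [h3] at h2
  nlinarith

/-- `e^{-γ t / 12} ≤ K t^{-2α} μ` -/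
lemma exp_bound (α c μ γ t : ℝ) (hα : 0 < α) (hc : 0 < c) (hμ : 0 < μ)
    (hγ : c * μ ^ (-(1 / (2 * α))) ≤ γ) (ht : 0 < t) :
    Real.exp (-(γ / 12) * t) ≤
      (Real.exp (2 * α * Real.log (2 * α) - 2 * α) * (c / 12) ^ (-(2 * α))) * t ^ (-(2 * α)) * μ := by
  set y := c / 12 * μ ^ (-(1 / (2 * α))) * t with hy
  have hy0 : 0 < y := by positivity
  have h1 : Real.exp (-(γ / 12) * t) ≤ Real.exp (-y) := by
    apply Real.exp_le_exp.2
    have := mul_le_mul_of_nonneg_right hγ ht.le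
    rw [hy]
    nlinarith
  refine h1.trans ?_
  have h2 := rpow_le_exp y (2 * α) hy0 (by positivity)
  have h3 : y ^ (-(2 * α)) = (c / 12) ^ (-(2 * α)) * μ * t ^ (-(2 * α)) := by
    rw [hy, Real.mul_rpow (by positivity) ht.le, Real.mul_rpow (by positivity) (by positivity),
      ← Real.rpow_mul hμ.le]
    have : -(1 / (2 * α)) * -(2 * α) = 1 := by field_simp
    rw [this, Real.rpow_one]
  have h4 : (Real.exp (2 * α * Real.log (2 * α) - 2 * α) * (c / 12) ^ (-(2 * α))) *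
      t ^ (-(2 * α)) * μ = Real.exp (2 * α * Real.log (2 * α) - 2 * α) * y ^ (-(2 * α)) := by
    rw [h3]; ring
  rw [h4, Real.rpow_neg hy0.le, Real.exp_neg, ← div_eq_mul_inv, le_div_iff₀ (by positivity),
    inv_mul_le_iff₀ (Real.exp_pos _)]
  rw [mul_comm (Real.exp y)]
  exact h2

lemma evg_true (μ g : ℕ → ℝ) (n : ℕ) : evg μ g (n, true) = μ n + g n := by simp [evg]

lemma evg_false (μ g : ℕ → ℝ) (n : ℕ) : evg μ g (n, false) = μ n - g n := by simp [evg]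

section

variable {μ g : ℕ → ℝ} {u v : ℝ → (Sg μ g).domain}

lemma coord_u (h : IsWaveSol (Ag μ g) (Sg μ g) B u v) (i : ℕ × Bool) (t : ℝ) (ht : 0 ≤ t) :
    HasDerivWithinAt (fun s => (u s : L2 (ℕ × Bool)) i) ((v t : L2 (ℕ × Bool)) i) (Ici 0) t := by
  have h1 := h.du t ht
  exact ((lp.evalCLM ℂ (fun _ : ℕ × Bool => ℂ) 2 i).restrictScalars ℝ).hasFDerivAt.comp_hasDerivWithinAt
    t h1

lemma coord_v (h : IsWaveSol (Ag μ g) (Sg μ g) B u v) (n : ℕ) (c : Bool) (t : ℝ) (ht : 0 ≤ t) :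
    HasDerivWithinAt (fun s => (v s : L2 (ℕ × Bool)) (n, c))
      (-((evg μ g (n, c) : ℂ) * (u t : L2 (ℕ × Bool)) (n, c)) -
        (1 / 2) * ((v t : L2 (ℕ × Bool)) (n, true) + (v t : L2 (ℕ × Bool)) (n, false)))
      (Ici 0) t := by
  have h1 := h.dv t ht
  have h2 := ((lp.evalCLM ℂ (fun _ : ℕ × Bool => ℂ) 2
    (n, c)).restrictScalars ℝ).hasFDerivAt.comp_hasDerivWithinAt t h1
  refine h2.congr_deriv ?_
  show (-(Ag μ g ⟨(u t : L2 (ℕ × Bool)), h.dom t ht⟩) -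
    B (ContinuousLinearMap.adjoint B (v t : L2 (ℕ × Bool))) : L2 (ℕ × Bool)) (n, c) = _
  rw [adjB, lp.coeFn_sub, Pi.sub_apply, lp.coeFn_neg, Pi.neg_apply, BG_apply]
  rfl

/-- energy of the block `n` -/
noncomputable def FF (μ : ℕ → ℝ) (x w : L2 (ℕ × Bool)) (n : ℕ) : ℝ :=
  ‖w (n, true)‖ ^ 2 + ‖w (n, false)‖ ^ 2 + μ n * (‖x (n, true)‖ ^ 2 + ‖x (n, false)‖ ^ 2)

lemma FF_eq (μ : ℕ → ℝ) (x w : L2 (ℕ × Bool)) (n : ℕ) : 2 * FF μ x w n =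
    (((w (n, true) + w (n, false)).re) ^ 2 + ((w (n, true) - w (n, false)).re) ^ 2 +
      μ n * (((x (n, true) + x (n, false)).re) ^ 2 + ((x (n, true) - x (n, false)).re) ^ 2)) +
    (((w (n, true) + w (n, false)).im) ^ 2 + ((w (n, true) - w (n, false)).im) ^ 2 +
      μ n * (((x (n, true) + x (n, false)).im) ^ 2 + ((x (n, true) - x (n, false)).im) ^ 2)) := by
  unfold FF
  simp only [← Complex.normSq_eq_norm_sq, Complex.normSq_apply, Complex.add_re, Complex.add_im,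
    Complex.sub_re, Complex.sub_im]
  ring

lemma block_decay (hB : StBlock) (hμ : ∀ n, 16 ≤ μ n) (hg : ∀ n, 1 ≤ g n)
    (hgm : ∀ n, 16 * (g n) ^ 2 ≤ μ n) (h : IsWaveSol (Ag μ g) (Sg μ g) B u v) (n : ℕ) (t : ℝ)
    (ht : 0 ≤ t) : FF μ (u t) (v t) n ≤
      3 * Real.exp (-(((g n) ^ 2 / μ n) / 12) * t) * FF μ (u 0) (v 0) n := by
  have hμn : 0 < μ n := by linarith [hμ n]
  have hgn : 0 < g n := by linarith [hg n]
  have hγ : (g n) ^ 2 / μ n * μ n = (g n) ^ 2 := div_mul_cancel₀ _ hμn.ne'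
  have hγ2 : 16 * ((g n) ^ 2 / μ n) ≤ 1 := by
    rw [← mul_div_assoc, div_le_one hμn]; exact hgm n
  have hP : ∀ t, 0 ≤ t → HasDerivWithinAt (fun s => (u s : L2 (ℕ × Bool)) (n, true) +
      (u s : L2 (ℕ × Bool)) (n, false)) ((v t : L2 (ℕ × Bool)) (n, true) +
      (v t : L2 (ℕ × Bool)) (n, false)) (Ici 0) t := fun t ht =>
    (coord_u h _ t ht).add (coord_u h _ t ht)
  have hQ : ∀ t, 0 ≤ t → HasDerivWithinAt (fun s => (u s : L2 (ℕ × Bool)) (n, true) -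
      (u s : L2 (ℕ × Bool)) (n, false)) ((v t : L2 (ℕ × Bool)) (n, true) -
      (v t : L2 (ℕ × Bool)) (n, false)) (Ici 0) t := fun t ht =>
    (coord_u h _ t ht).sub (coord_u h _ t ht)
  have ha : ∀ t, 0 ≤ t → HasDerivWithinAt (fun s => (v s : L2 (ℕ × Bool)) (n, true) +
      (v s : L2 (ℕ × Bool)) (n, false))
      (-(μ n : ℂ) * ((u t : L2 (ℕ × Bool)) (n, true) + (u t : L2 (ℕ × Bool)) (n, false)) -
        (g n : ℂ) * ((u t : L2 (ℕ × Bool)) (n, true) - (u t : L2 (ℕ × Bool)) (n, false)) -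
        ((v t : L2 (ℕ × Bool)) (n, true) + (v t : L2 (ℕ × Bool)) (n, false))) (Ici 0) t := by
    intro t ht
    refine ((coord_v h n true t ht).add (coord_v h n false t ht)).congr_deriv ?_
    rw [evg_true, evg_false]
    push_cast
    ring
  have hb : ∀ t, 0 ≤ t → HasDerivWithinAt (fun s => (v s : L2 (ℕ × Bool)) (n, true) -
      (v s : L2 (ℕ × Bool)) (n, false))
      (-(μ n : ℂ) * ((u t : L2 (ℕ × Bool)) (n, true) - (u t : L2 (ℕ × Bool)) (n, false)) -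
        (g n : ℂ) * ((u t : L2 (ℕ × Bool)) (n, true) + (u t : L2 (ℕ × Bool)) (n, false)))
        (Ici 0) t := by
    intro t ht
    refine ((coord_v h n true t ht).sub (coord_v h n false t ht)).congr_deriv ?_
    rw [evg_true, evg_false]
    push_cast
    ring
  have h1 := hB (μ n) (g n) ((g n) ^ 2 / μ n) _ _ _ _ (hμ n) hgn hγ hγ2
    (fun t ht => Complex.reCLM.hasFDerivAt.comp_hasDerivWithinAt t (hP t ht))
    (fun t ht => Complex.reCLM.hasFDerivAt.comp_hasDerivWithinAt t (hQ t ht))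
    (fun t ht => (Complex.reCLM.hasFDerivAt.comp_hasDerivWithinAt t (ha t ht)).congr_deriv (by
      simp [Complex.reCLM_apply]))
    (fun t ht => (Complex.reCLM.hasFDerivAt.comp_hasDerivWithinAt t (hb t ht)).congr_deriv (by
      simp [Complex.reCLM_apply])) t ht
  have h2 := hB (μ n) (g n) ((g n) ^ 2 / μ n) _ _ _ _ (hμ n) hgn hγ hγ2
    (fun t ht => Complex.imCLM.hasFDerivAt.comp_hasDerivWithinAt t (hP t ht))
    (fun t ht => Complex.imCLM.hasFDerivAt.comp_hasDerivWithinAt t (hQ t ht))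
    (fun t ht => (Complex.imCLM.hasFDerivAt.comp_hasDerivWithinAt t (ha t ht)).congr_deriv (by
      simp [Complex.imCLM_apply]))
    (fun t ht => (Complex.imCLM.hasFDerivAt.comp_hasDerivWithinAt t (hb t ht)).congr_deriv (by
      simp [Complex.imCLM_apply])) t ht
  simp only [Function.comp, Complex.reCLM_apply] at h1
  simp only [Function.comp, Complex.imCLM_apply] at h2
  have e1 := FF_eq μ (u t) (v t) n
  have e2 := FF_eq μ (u 0) (v 0) n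
  have h3 := add_le_add h1 h2
  rw [← mul_add, ← e2, ← e1] at h3
  linarith

lemma evg_ge (hg : ∀ n, 1 ≤ g n) (_hμ : ∀ n, 16 ≤ μ n)
    (hgm : ∀ n, 16 * (g n) ^ 2 ≤ μ n) (i : ℕ × Bool) : μ i.1 / 2 ≤ evg μ g i := by
  have h1 : 16 * g i.1 ≤ μ i.1 := by nlinarith [hg i.1, hgm i.1]
  have h2 := hg i.1
  unfold evg
  split_ifs <;> linarith

lemma evg_le (hg : ∀ n, 1 ≤ g n) (hμ : ∀ n, 16 ≤ μ n)
    (hgm : ∀ n, 16 * (g n) ^ 2 ≤ μ n) (i : ℕ × Bool) : evg μ g i ≤ 2 * μ i.1 := by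
  have h1 : 16 * g i.1 ≤ μ i.1 := by nlinarith [hg i.1, hgm i.1]
  have h2 := hg i.1
  have h3 := hμ i.1
  unfold evg
  split_ifs <;> linarith

end

theorem stStable : StBlock → StStable := by
  intro hB μ g α c hα hc hμ hg hgm hγ
  set M : ℝ := ‖B‖ * ‖ContinuousLinearMap.adjoint B‖ with hM
  have hM0 : 0 ≤ M := by positivity
  set K : ℝ := Real.exp (2 * α * Real.log (2 * α) - 2 * α) * (c / 12) ^ (-(2 * α)) with hK
  have hK0 : 0 < K := by positivity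
  refine ⟨Real.sqrt (36 * K * (1 + M) ^ 2), fun u v h t ht => ?_⟩
  set Γ := graphNrm (Ag μ g) (Sg μ g) B (u 0) (h.dom 0 le_rfl) (v 0) with hΓ
  have hev0 : ∀ i, 0 ≤ evg μ g i := fun i => by
    have := evg_ge hg hμ hgm i
    have := hμ i.1
    linarith
  -- the norm of `S x`
  have hS : ∀ x : (Sg μ g).domain, HasSum (fun n : ℕ => evg μ g (n, true) *
      ‖(x : L2 (ℕ × Bool)) (n, true)‖ ^ 2 + evg μ g (n, false) *
      ‖(x : L2 (ℕ × Bool)) (n, false)‖ ^ 2) (‖Sg μ g x‖ ^ 2) := by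
    intro x
    have h1 := hasSum_pair (Sg μ g x)
    convert h1 using 2 with n
    have h2 : ∀ i : ℕ × Bool, ‖(Sg μ g x : L2 (ℕ × Bool)) i‖ ^ 2 =
        evg μ g i * ‖(x : L2 (ℕ × Bool)) i‖ ^ 2 := by
      intro i
      have : (Sg μ g x : L2 (ℕ × Bool)) i = ((Real.sqrt (evg μ g i) : ℝ) : ℂ) *
        (x : L2 (ℕ × Bool)) i := rfl
      rw [this, norm_mul, mul_pow, Complex.norm_real, Real.norm_eq_abs, sq_abs,
        Real.sq_sqrt (hev0 i)]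
    rw [h2, h2]
  have hA : HasSum (fun n : ℕ => evg μ g (n, true) ^ 2 *
      ‖(u 0 : L2 (ℕ × Bool)) (n, true)‖ ^ 2 + evg μ g (n, false) ^ 2 *
      ‖(u 0 : L2 (ℕ × Bool)) (n, false)‖ ^ 2)
      (‖Ag μ g ⟨(u 0 : L2 (ℕ × Bool)), h.dom 0 le_rfl⟩‖ ^ 2) := by
    have h1 := hasSum_pair (Ag μ g ⟨(u 0 : L2 (ℕ × Bool)), h.dom 0 le_rfl⟩)
    convert h1 using 2 with n
    have h2 : ∀ i : ℕ × Bool, ‖(Ag μ g ⟨(u 0 : L2 (ℕ × Bool)), h.dom 0 le_rfl⟩ :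
        L2 (ℕ × Bool)) i‖ ^ 2 = evg μ g i ^ 2 * ‖(u 0 : L2 (ℕ × Bool)) i‖ ^ 2 := by
      intro i
      have : (Ag μ g ⟨(u 0 : L2 (ℕ × Bool)), h.dom 0 le_rfl⟩ : L2 (ℕ × Bool)) i =
        ((evg μ g i : ℝ) : ℂ) * (u 0 : L2 (ℕ × Bool)) i := rfl
      rw [this, norm_mul, mul_pow, Complex.norm_real, Real.norm_eq_abs, sq_abs]
    rw [h2, h2]
  -- sizes of the initial data
  have g1 : ‖Sg μ g (v 0)‖ ≤ Γ := by
    have e1 : ‖Sg μ g (v 0)‖ ≤ nrm (Sg μ g) (v 0)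
        (-(Ag μ g ⟨(u 0 : L2 (ℕ × Bool)), h.dom 0 le_rfl⟩) -
          B (ContinuousLinearMap.adjoint B (v 0 : L2 (ℕ × Bool)))) := by
      unfold nrm
      apply Real.le_sqrt_of_sq_le
      nlinarith [sq_nonneg ‖(v 0 : L2 (ℕ × Bool))‖, sq_nonneg
        ‖-(Ag μ g ⟨(u 0 : L2 (ℕ × Bool)), h.dom 0 le_rfl⟩) -
          B (ContinuousLinearMap.adjoint B (v 0 : L2 (ℕ × Bool)))‖]
    have e2 : 0 ≤ nrm (Sg μ g) (u 0) (v 0 : L2 (ℕ × Bool)) := Real.sqrt_nonneg _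
    rw [hΓ, graphNrm]
    linarith
  have g2 : ‖Ag μ g ⟨(u 0 : L2 (ℕ × Bool)), h.dom 0 le_rfl⟩‖ ≤ (1 + M) * Γ := by
    have e1 : ‖-(Ag μ g ⟨(u 0 : L2 (ℕ × Bool)), h.dom 0 le_rfl⟩) -
          B (ContinuousLinearMap.adjoint B (v 0 : L2 (ℕ × Bool)))‖ ≤ nrm (Sg μ g) (v 0)
        (-(Ag μ g ⟨(u 0 : L2 (ℕ × Bool)), h.dom 0 le_rfl⟩) -
          B (ContinuousLinearMap.adjoint B (v 0 : L2 (ℕ × Bool)))) := by
      unfold nrm
      apply Real.le_sqrt_of_sq_le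
      nlinarith [sq_nonneg ‖(v 0 : L2 (ℕ × Bool))‖, sq_nonneg ‖Sg μ g (v 0)‖]
    have e2 : ‖(v 0 : L2 (ℕ × Bool))‖ ≤ nrm (Sg μ g) (u 0) (v 0 : L2 (ℕ × Bool)) := by
      unfold nrm
      apply Real.le_sqrt_of_sq_le
      nlinarith [sq_nonneg ‖(u 0 : L2 (ℕ × Bool))‖, sq_nonneg ‖Sg μ g (u 0)‖]
    have e3 : ‖B (ContinuousLinearMap.adjoint B (v 0 : L2 (ℕ × Bool)))‖ ≤
        M * ‖(v 0 : L2 (ℕ × Bool))‖ := by
      refine (B.le_opNorm _).trans ?_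
      rw [hM, mul_assoc]
      exact mul_le_mul_of_nonneg_left (ContinuousLinearMap.le_opNorm _ _) (norm_nonneg _)
    have e4 : ‖Ag μ g ⟨(u 0 : L2 (ℕ × Bool)), h.dom 0 le_rfl⟩‖ ≤
        ‖-(Ag μ g ⟨(u 0 : L2 (ℕ × Bool)), h.dom 0 le_rfl⟩) -
          B (ContinuousLinearMap.adjoint B (v 0 : L2 (ℕ × Bool)))‖ +
        ‖B (ContinuousLinearMap.adjoint B (v 0 : L2 (ℕ × Bool)))‖ := by
      have := norm_add_le (-(Ag μ g ⟨(u 0 : L2 (ℕ × Bool)), h.dom 0 le_rfl⟩) -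
          B (ContinuousLinearMap.adjoint B (v 0 : L2 (ℕ × Bool))))
        (B (ContinuousLinearMap.adjoint B (v 0 : L2 (ℕ × Bool))))
      rwa [sub_add_cancel, norm_neg] at this
    have e5 : 0 ≤ nrm (Sg μ g) (u 0) (v 0 : L2 (ℕ × Bool)) := Real.sqrt_nonneg _
    have e6 : 0 ≤ nrm (Sg μ g) (v 0)
        (-(Ag μ g ⟨(u 0 : L2 (ℕ × Bool)), h.dom 0 le_rfl⟩) -
          B (ContinuousLinearMap.adjoint B (v 0 : L2 (ℕ × Bool)))) := Real.sqrt_nonneg _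
    have e7 : M * ‖(v 0 : L2 (ℕ × Bool))‖ ≤ M * nrm (Sg μ g) (u 0) (v 0 : L2 (ℕ × Bool)) :=
      mul_le_mul_of_nonneg_left e2 hM0
    rw [hΓ, graphNrm]
    nlinarith [mul_nonneg hM0 e6]
  have hΓ0 : 0 ≤ Γ := (norm_nonneg _).trans g1
  -- the sum
  have s1 : HasSum (fun n : ℕ => (evg μ g (n, true) *
      ‖(u t : L2 (ℕ × Bool)) (n, true)‖ ^ 2 + evg μ g (n, false) *
      ‖(u t : L2 (ℕ × Bool)) (n, false)‖ ^ 2) + (‖(v t : L2 (ℕ × Bool)) (n, true)‖ ^ 2 +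
      ‖(v t : L2 (ℕ × Bool)) (n, false)‖ ^ 2)) (‖Sg μ g (u t)‖ ^ 2 +
      ‖(v t : L2 (ℕ × Bool))‖ ^ 2) := (hS (u t)).add (hasSum_pair _)
  have s2 : HasSum (fun n : ℕ => (6 * K * t ^ (-(2 * α))) *
      (2 * (evg μ g (n, true) *
      ‖(v 0 : L2 (ℕ × Bool)) (n, true)‖ ^ 2 + evg μ g (n, false) *
      ‖(v 0 : L2 (ℕ × Bool)) (n, false)‖ ^ 2) + 4 * (evg μ g (n, true) ^ 2 *
      ‖(u 0 : L2 (ℕ × Bool)) (n, true)‖ ^ 2 + evg μ g (n, false) ^ 2 *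
      ‖(u 0 : L2 (ℕ × Bool)) (n, false)‖ ^ 2)))
      ((6 * K * t ^ (-(2 * α))) * (2 * ‖Sg μ g (v 0)‖ ^ 2 +
        4 * ‖Ag μ g ⟨(u 0 : L2 (ℕ × Bool)), h.dom 0 le_rfl⟩‖ ^ 2)) :=
    (((hS (v 0)).mul_left 2).add (hA.mul_left 4)).mul_left _
  have s3 := hasSum_le (fun n => ?_) s1 s2
  · have htp : 0 < t ^ (-(2 * α)) := by positivity
    have s4 : 2 * ‖Sg μ g (v 0)‖ ^ 2 +
        4 * ‖Ag μ g ⟨(u 0 : L2 (ℕ × Bool)), h.dom 0 le_rfl⟩‖ ^ 2 ≤ 6 * ((1 + M) * Γ) ^ 2 := by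
      have a1 : ‖Sg μ g (v 0)‖ ^ 2 ≤ ((1 + M) * Γ) ^ 2 :=
        pow_le_pow_left₀ (norm_nonneg _) (g1.trans (by nlinarith)) 2
      have a2 : ‖Ag μ g ⟨(u 0 : L2 (ℕ × Bool)), h.dom 0 le_rfl⟩‖ ^ 2 ≤ ((1 + M) * Γ) ^ 2 :=
        pow_le_pow_left₀ (norm_nonneg _) g2 2
      linarith
    have s5 : ‖Sg μ g (u t)‖ ^ 2 + ‖(v t : L2 (ℕ × Bool))‖ ^ 2 ≤
        (6 * K * t ^ (-(2 * α))) * (6 * ((1 + M) * Γ) ^ 2) :=
      s3.trans (mul_le_mul_of_nonneg_left s4 (by positivity))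
    have s6 : (6 * K * t ^ (-(2 * α))) * (6 * ((1 + M) * Γ) ^ 2) =
        (36 * K * (1 + M) ^ 2) * (t ^ (-α) * Γ) ^ 2 := by
      have : t ^ (-(2 * α)) = (t ^ (-α)) ^ 2 := by
        rw [← Real.rpow_natCast, ← Real.rpow_mul ht.le]
        congr 1
        push_cast
        ring
      rw [this]
      ring
    rw [s6] at s5
    unfold semi
    calc Real.sqrt (‖Sg μ g (u t)‖ ^ 2 + ‖(v t : L2 (ℕ × Bool))‖ ^ 2) ≤
        Real.sqrt ((36 * K * (1 + M) ^ 2) * (t ^ (-α) * Γ) ^ 2) := Real.sqrt_le_sqrt s5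
      _ = Real.sqrt (36 * K * (1 + M) ^ 2) * t ^ (-α) * Γ := by
        rw [Real.sqrt_mul (by positivity), Real.sqrt_sq (by positivity)]
        ring
  · have b1 := block_decay hB hμ hg hgm h n t ht.le
    have b2 := exp_bound α c (μ n) ((g n) ^ 2 / μ n) t hα hc (by linarith [hμ n]) (hγ n) ht
    have b3 : 0 ≤ FF μ (u 0) (v 0) n := by
      unfold FF
      have := hμ n
      positivity
    have c1 := evg_le hg hμ hgm (n, true)
    have c2 := evg_le hg hμ hgm (n, false)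
    have c3 := evg_ge hg hμ hgm (n, true)
    have c4 := evg_ge hg hμ hgm (n, false)
    simp only at c1 c2 c3 c4
    have hμn := hμ n
    -- left side ≤ 2 F(t)
    have d1 : (evg μ g (n, true) *
      ‖(u t : L2 (ℕ × Bool)) (n, true)‖ ^ 2 + evg μ g (n, false) *
      ‖(u t : L2 (ℕ × Bool)) (n, false)‖ ^ 2) + (‖(v t : L2 (ℕ × Bool)) (n, true)‖ ^ 2 +
      ‖(v t : L2 (ℕ × Bool)) (n, false)‖ ^ 2) ≤ 2 * FF μ (u t) (v t) n := by
      have a1 := mul_le_mul_of_nonneg_right c1 (sq_nonneg ‖(u t : L2 (ℕ × Bool)) (n, true)‖)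
      have a2 := mul_le_mul_of_nonneg_right c2 (sq_nonneg ‖(u t : L2 (ℕ × Bool)) (n, false)‖)
      unfold FF
      nlinarith [sq_nonneg ‖(v t : L2 (ℕ × Bool)) (n, true)‖,
        sq_nonneg ‖(v t : L2 (ℕ × Bool)) (n, false)‖]
    have d2 : μ n * FF μ (u 0) (v 0) n ≤ (2 * (evg μ g (n, true) *
      ‖(v 0 : L2 (ℕ × Bool)) (n, true)‖ ^ 2 + evg μ g (n, false) *
      ‖(v 0 : L2 (ℕ × Bool)) (n, false)‖ ^ 2) + 4 * (evg μ g (n, true) ^ 2 *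
      ‖(u 0 : L2 (ℕ × Bool)) (n, true)‖ ^ 2 + evg μ g (n, false) ^ 2 *
      ‖(u 0 : L2 (ℕ × Bool)) (n, false)‖ ^ 2)) := by
      have q1 : μ n ^ 2 ≤ 4 * evg μ g (n, true) ^ 2 := by nlinarith
      have q2 : μ n ^ 2 ≤ 4 * evg μ g (n, false) ^ 2 := by nlinarith
      have q3 : μ n ≤ 2 * evg μ g (n, true) := by linarith
      have q4 : μ n ≤ 2 * evg μ g (n, false) := by linarith
      have a1 := mul_le_mul_of_nonneg_right q1 (sq_nonneg ‖(u 0 : L2 (ℕ × Bool)) (n, true)‖)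
      have a2 := mul_le_mul_of_nonneg_right q2 (sq_nonneg ‖(u 0 : L2 (ℕ × Bool)) (n, false)‖)
      have a3 := mul_le_mul_of_nonneg_right q3 (sq_nonneg ‖(v 0 : L2 (ℕ × Bool)) (n, true)‖)
      have a4 := mul_le_mul_of_nonneg_right q4 (sq_nonneg ‖(v 0 : L2 (ℕ × Bool)) (n, false)‖)
      unfold FF
      nlinarith
    calc _ ≤ 2 * FF μ (u t) (v t) n := d1
      _ ≤ 2 * (3 * Real.exp (-(((g n) ^ 2 / μ n) / 12) * t) * FF μ (u 0) (v 0) n) := by linarith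
      _ ≤ 2 * (3 * (K * t ^ (-(2 * α)) * μ n) * FF μ (u 0) (v 0) n) := by
        gcongr
      _ = (6 * K * t ^ (-(2 * α))) * (μ n * FF μ (u 0) (v 0) n) := by ring
      _ ≤ _ := mul_le_mul_of_nonneg_left d2 (by positivity)

end Pool.Agent.H60.DR
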